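import Pool.Agent.T2h81.LD.H2

set_option autoImplicit false

/-!
# Prime gaps `lam` times the average around `α a b + f a + g b`: a positive proportion of the pairs

Let `α` be irrational and `0 < ε ≤ 1`. There is `C > 0` such that for arbitrarily large `Z` - for all large `Z` if
`α` is not a Liouville number, with `δ > 0` instead of `1 / 16` - the following holds for all
`1 ≤ lam ≤ (log log Z) / C`, for ALL sets `A`, `B` of positive integers up to `Z` with `|A| |B| ≥ Z ^ (2 - 1/16)` and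
ALL real functions `f`, `g` with `α a b + f a + g b ≥ Z ^ ε` for `a ∈ A`, `b ∈ B`: for at least
`|A| |B| exp (- exp (C lam))` pairs `(a, b)` in `A × B` no prime lies within `lam log Z` of `α a b + f a + g b`.
So for fixed `lam` a positive proportion of the pairs leads to prime gaps longer than `lam` times the average.

The starting result `MP_7ba156_nt.ArbitraryDenseSets` has longer gaps, for `|A| |B| Z ^ (-ε)` pairs. Proof: its
bilinear sums, and the positive proportion criterion `T2h81.LD.crit_ldJ`.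
-/

namespace Pool.Agent.Results.MP_7ba156_nt.DenseSetsPositiveProportion

/-- no prime is at distance at most `d` from `x` -/
def PrimeFreeAround (x d : ℝ) : Prop := ∀ q : ℕ, q.Prime → d < |(q : ℝ) - x|

/-- For all `1 ≤ lam ≤ (log log Z) / C`, all sets `A`, `B` of positive integers up to `Z` with
`|A| |B| ≥ Z ^ (2 - δ)` and all functions `f`, `g` with `α a b + f a + g b ≥ Z ^ ε` on `A × B`: for at least
`|A| |B| exp (- exp (C lam))` pairs `(a, b) ∈ A × B` no prime is within `lam log Z` of `α a b + f a + g b`. -/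
def ManyPairs (α ε δ C Z : ℝ) : Prop :=
  ∀ lam : ℝ, 1 ≤ lam → lam ≤ Real.log (Real.log Z) / C → ∀ (A B : Finset ℕ) (f g : ℕ → ℝ),
    (∀ a ∈ A, 1 ≤ a ∧ (a : ℝ) ≤ Z) → (∀ b ∈ B, 1 ≤ b ∧ (b : ℝ) ≤ Z) →
    Z ^ (2 - δ) ≤ (A.card : ℝ) * B.card →
    (∀ a ∈ A, ∀ b ∈ B, Z ^ ε ≤ α * a * b + f a + g b) →
    (A.card : ℝ) * B.card * Real.exp (-Real.exp (C * lam)) ≤
      (({x : ℕ × ℕ | x.1 ∈ A ∧ x.2 ∈ B ∧
        PrimeFreeAround (α * x.1 * x.2 + f x.1 + g x.2) (lam * Real.log Z)}.ncard : ℕ) : ℝ)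

theorem result (α : ℝ) (hirr : Irrational α) (ε : ℝ) (hε : 0 < ε) (hε1 : ε ≤ 1) :
    ∃ C : ℝ, 0 < C ∧
      (∀ Z₁ : ℝ, ∃ Z : ℝ, Z₁ ≤ Z ∧ ManyPairs α ε (1 / 16) C Z) ∧
      (¬ Liouville α → ∃ δ : ℝ, 0 < δ ∧ ∃ Z₀ : ℝ, ∀ Z : ℝ, Z₀ ≤ Z → ManyPairs α ε δ C Z) := by
  classical
  obtain ⟨C, hC, h1, h2⟩ := Pool.Agent.T2h81.LD.products_both_ld α hirr ε hε hε1
  have hex : ∀ Z lam : ℝ, 2 ≤ Z → lam ≤ Real.log (Real.log Z) / C →
      Real.exp (C * lam) ≤ Real.log Z := by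
    intro Z lam hZ2 hlamZ
    have hlog : 0 < Real.log Z := Real.log_pos (by linarith)
    rw [le_div_iff₀ (by linarith)] at hlamZ
    rw [← Real.exp_log hlog]
    apply Real.exp_le_exp.2
    linarith
  have hconv : ∀ (A B : Finset ℕ) (f g : ℕ → ℝ) (d : ℝ),
      ({x : ℕ × ℕ | x.1 ∈ A ∧ x.2 ∈ B ∧
        PrimeFreeAround (α * x.1 * x.2 + f x.1 + g x.2) d}.ncard) =
      ((A ×ˢ B).filter (fun x : ℕ × ℕ => ∀ q : ℕ, q.Prime →
          d < |(q : ℝ) - (α * x.1 * x.2 + f x.1 + g x.2)|)).card := by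
    intro A B f g d
    rw [← Set.ncard_coe_finset, Finset.coe_filter]
    congr 1
    ext x
    simp only [Set.mem_ofPred_eq, Finset.mem_product, PrimeFreeAround]
    tauto
  refine ⟨C, by linarith, ?_, ?_⟩
  · intro Z₁
    obtain ⟨Z, hZ, h3⟩ := h1 (max Z₁ 2)
    refine ⟨Z, (le_max_left _ _).trans hZ, ?_⟩
    intro lam hlam hlamZ A B f g hA hB hAB hlow
    rw [hconv]
    exact h3 lam hlam (hex Z lam ((le_max_right _ _).trans hZ) hlamZ) A B f g hA hB hAB hlow
  · intro hL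
    obtain ⟨δ, hδ, Z₀, h3⟩ := h2 hL
    refine ⟨δ, hδ, max Z₀ 2, ?_⟩
    intro Z hZ lam hlam hlamZ A B f g hA hB hAB hlow
    rw [hconv]
    exact h3 Z ((le_max_left _ _).trans hZ) lam hlam
      (hex Z lam ((le_max_right _ _).trans hZ) hlamZ) A B f g hA hB hAB hlow

end Pool.Agent.Results.MP_7ba156_nt.DenseSetsPositiveProportion
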