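import Pool.Agent.T2h81.LD.G13

set_option autoImplicit false

/-!
# Prime gaps `lam` times the average around the members of any well distributed family

Let `r ≥ 1` and `0 < δ ≤ 1`. There are `C, Z₀ > 0` such that for all `Z ≥ Z₀`, all `1 ≤ lam ≤ (log log Z) / C` and
all finite families of integer vectors `v(i) = (v₁(i), …, v_r(i))`, `i ∈ s`, with the level of distribution `Z ^ δ`
(for all `q ≤ Z ^ δ` every residue class vector modulo `q` contains `|s| / q ^ r` members, up to `|s| Z ^ (-δ)`): for
at least `|s| exp (- exp (C lam))` of the `i ∈ s` every integer within `lam log Z` of one of the numbers `v₁(i), …,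
v_r(i)` is a proper multiple of a prime `p ≤ Z ^ (1 / lam)`, in particular not a prime. There is no other condition
on the family, and no condition on the size of the vectors.

For every fixed `lam` this is a positive proportion of ANY well distributed family.

Proof (`Pool.Agent.T2h81.LD`). Fix a class of vectors modulo the primorial of `log X / 512`, `X` a power of `Z`, for
which the survivors in the `r` windows are not more numerous than on average. The hypergraph covering theorem of the
library (`Y831.RC`, here `T2h81.RF`), applied with a profile which depends on `lam`, shows that the survivors are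
killed by the larger primes for a proportion `exp (- exp (c lam))` of the members in the class: the members are
counted through the moduli up to `X ^ (2 / 5)` only, the colourings of `T2h81.LD.G6` take the place of the
Chinese remainder theorem. Averaging over the classes concludes.
-/

namespace Pool.Agent.Results.MP_7ba156_nt.LevelOfDistribution

open Finset

/-- For every `q ≤ Z ^ δ` each class of vectors modulo `q` contains the expected number `|s| / q ^ r` of the vectors
`v i`, `i ∈ s`, up to an error of at most `|s| Z ^ (-δ)`. -/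
def HasLevel {r : ℕ} {ι : Type} (s : Finset ι) (v : ι → Fin r → ℤ) (Z δ : ℝ) : Prop :=
  ∀ q : ℕ, 1 ≤ q → (q : ℝ) ≤ Z ^ δ → ∀ ρ : Fin r → ℤ,
    |(({i : ι | i ∈ s ∧ ∀ j, v i j ≡ ρ j [ZMOD q]}.ncard : ℕ) : ℝ) - s.card / (q : ℝ) ^ r| ≤
      s.card * Z ^ (-δ)

/-- Every integer at distance at most `d` from `x` is a proper multiple of a prime `p ≤ y`. -/
def SmallFactors (x : ℤ) (d y : ℝ) : Prop :=
  ∀ m : ℤ, |(m : ℝ) - x| ≤ d → ∃ p : ℕ, p.Prime ∧ (p : ℝ) ≤ y ∧ (p : ℤ) ∣ m ∧ (p : ℤ) < |m|

theorem result (r : ℕ) (hr : 1 ≤ r) (δ : ℝ) (hδ : 0 < δ) (hδ1 : δ ≤ 1) :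
    ∃ C : ℝ, 0 < C ∧ ∃ Z₀ : ℝ, ∀ Z : ℝ, Z₀ ≤ Z → ∀ lam : ℝ, 1 ≤ lam →
      lam ≤ Real.log (Real.log Z) / C →
      ∀ (ι : Type) (s : Finset ι) (v : ι → Fin r → ℤ), HasLevel s v Z δ →
      (s.card : ℝ) * Real.exp (-Real.exp (C * lam)) ≤
        (({i : ι | i ∈ s ∧ ∀ j, SmallFactors (v i j) (lam * Real.log Z) (Z ^ (1 / lam))}.ncard : ℕ) : ℝ) := by
  classical
  obtain ⟨C, hC, hcr⟩ := Pool.Agent.T2h81.LD.ld_final r hr δ hδ hδ1
  obtain ⟨Z₀, h0⟩ := Filter.eventually_atTop.mp hcr
  refine ⟨C, by linarith, max Z₀ 2, fun Z hZ lam hlam hlamZ ι s v hv => ?_⟩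
  have hZ2 : 2 ≤ Z := (le_max_right _ _).trans hZ
  have hlog : 0 < Real.log Z := Real.log_pos (by linarith)
  have hex : Real.exp (C * lam) ≤ Real.log Z := by
    rw [le_div_iff₀ (by linarith)] at hlamZ
    rw [← Real.exp_log hlog]
    apply Real.exp_le_exp.2
    linarith
  refine (h0 Z ((le_max_left _ _).trans hZ) lam hlam hex ι s v ?_).trans (le_of_eq ?_)
  · intro q hq hqZ ρ
    have h1 := hv q hq hqZ ρ
    convert h1 using 5
    rw [← Set.ncard_coe_finset, Finset.coe_filter]
    congr 1
    ext i
    simp only [Set.mem_ofPred_eq]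
    apply and_congr_right
    intro _
    apply forall_congr'
    intro j
    rw [Int.modEq_comm, Int.modEq_iff_dvd]
  · rw [← Set.ncard_coe_finset, Finset.coe_filter]
    rfl

end Pool.Agent.Results.MP_7ba156_nt.LevelOfDistribution
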