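import Pool.Agent.T2h81.LD.H1

set_option autoImplicit false

/-!
# Prime gaps `lam` times the average around the values of several real polynomials: a positive proportion

Let `P₁, …, P_r` be real polynomials with positive leading coefficients, of arbitrary degrees, such that no
nontrivial integer combination `h₁ P₁ + ⋯ + h_r P_r` has only rational coefficients in positive degree, and suppose
that EITHER all coefficients of positive degree lie in the ring generated by the real algebraic numbers and `e`, OR,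
for some `c, τ > 0`, the highest irrational coefficient of `h₁ P₁ + ⋯ + h_r P_r` has distance at least
`c H ^ (-τ)` from the integers, for all integer vectors `h` with entries at most `H`. There are `C, Z₀ > 0` such that
for all `Z ≥ Z₀`, `M ≥ Z` and `1 ≤ lam ≤ (log log Z) / C` at least `Z exp (- exp (C lam))` integers `n` in
`(M, M + Z]` have no prime within `lam log Z` of any of the `r + 1` numbers `n, P₁(n), …, P_r(n)`. So for every
fixed `lam` a positive proportion of the `n` lies, together with the `r` values, in `r + 1` prime gaps that are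
simultaneously longer than `lam` times the average.

The starting result `MP_7ba156_nt.SeveralRealPolynomials` gives one `n`, with longer gaps. Here the covering sieve is
run on a positive proportion of the residue classes modulo the primorial of `log X / 512`, with a profile in the
manner of the `lam`-fold average gap problem (library `Y831`), for vectors of integers with a level of distribution
(`T2h81.LD.ld_main`); floors of real numbers with small exponential sums have one (`Y961.JR.discJ`).
-/

namespace Pool.Agent.Results.MP_7ba156_nt.PolynomialsPositiveProportion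

open Finset

/-- no prime is at distance at most `d` from `x` -/
def PrimeFreeAround (x d : ℝ) : Prop := ∀ q : ℕ, q.Prime → d < |(q : ℝ) - x|

/-- no nontrivial integer combination of the polynomials has only rational coefficients in positive degree -/
def Independent {r : ℕ} (P : Fin r → Polynomial ℝ) : Prop :=
  ∀ h : Fin r → ℤ, h ≠ 0 → ∃ i, 1 ≤ i ∧ Irrational ((∑ j, h j • P j).coeff i)

/-- all coefficients of positive degree lie in the ring generated by the real algebraic numbers and `e` -/
def AlgebraicOrE {r : ℕ} (P : Fin r → Polynomial ℝ) : Prop :=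
  ∀ j i, 1 ≤ i → (P j).coeff i ∈ Algebra.adjoin ℚ ({x : ℝ | IsAlgebraic ℚ x} ∪ {Real.exp 1})

/-- for some `c, τ > 0`: if the entries of the integer vector `h` are at most `H`, then the irrational coefficient of
`h₁ P₁ + ⋯ + h_r P_r` of the highest degree (if there is one in positive degree) has distance at least `c H ^ (-τ)`
from the integers -/
def Diophantine {r : ℕ} (P : Fin r → Polynomial ℝ) : Prop :=
  ∃ c τ : ℝ, 0 < c ∧ 0 < τ ∧ ∀ (H : ℕ) (h : Fin r → ℤ), (∀ j, |h j| ≤ H) → ∀ i, 1 ≤ i →
    Irrational ((∑ j, h j • P j).coeff i) → (∀ l, i < l → ¬ Irrational ((∑ j, h j • P j).coeff l)) →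
    ∀ m : ℤ, c * (H : ℝ) ^ (-τ) ≤ |(∑ j, h j • P j).coeff i - m|

lemma coeff_comb {r : ℕ} (P : Fin r → Polynomial ℝ) (h : Fin r → ℤ) (i : ℕ) :
    (∑ j, h j • P j).coeff i = ∑ j, (h j : ℝ) * (P j).coeff i := by
  rw [Polynomial.finsetSum_coeff]
  apply Finset.sum_congr rfl
  intro j _
  rw [Polynomial.coeff_smul, zsmul_eq_mul]

theorem result (r : ℕ) (hr : 1 ≤ r) (P : Fin r → Polynomial ℝ) (hlc : ∀ j, 0 < (P j).leadingCoeff)
    (hind : Independent P) (hP : AlgebraicOrE P ∨ Diophantine P) :
    ∃ C : ℝ, 0 < C ∧ ∃ Z₀ : ℝ, ∀ Z : ℝ, Z₀ ≤ Z → ∀ M : ℝ, Z ≤ M → ∀ lam : ℝ, 1 ≤ lam →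
      lam ≤ Real.log (Real.log Z) / C →
      Z * Real.exp (-Real.exp (C * lam)) ≤
        (({n : ℕ | M < n ∧ (n : ℝ) ≤ M + Z ∧ PrimeFreeAround n (lam * Real.log Z) ∧
          ∀ j, PrimeFreeAround ((P j).eval (n : ℝ)) (lam * Real.log Z)}.ncard : ℕ) : ℝ) := by
  classical
  have hind' : ∀ h : Fin r → ℤ, h ≠ 0 → ∃ i, 1 ≤ i ∧
      Irrational (∑ j, (h j : ℝ) * (P j).coeff i) := by
    intro h hh
    obtain ⟨i, hi, hirr⟩ := hind h hh
    exact ⟨i, hi, by rw [← coeff_comb]; exact hirr⟩
  have key : ∃ C : ℝ, 1 ≤ C ∧ ∃ Z₀ : ℝ, ∀ Z : ℝ, Z₀ ≤ Z → ∀ M : ℝ, Z ≤ M → ∀ lam : ℝ, 1 ≤ lam →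
      Real.exp (C * lam) ≤ Real.log Z →
      Z * Real.exp (-Real.exp (C * lam)) ≤ (((Finset.Ioc ⌊M⌋₊ ⌊M + Z⌋₊).filter (fun n : ℕ =>
        (∀ q : ℕ, q.Prime → lam * Real.log Z < |(q : ℝ) - n|) ∧
        ∀ j, ∀ q : ℕ, q.Prime → lam * Real.log Z < |(q : ℝ) - (P j).eval (n : ℝ)|)).card : ℝ) := by
    rcases hP with hP | ⟨c, τ, hc, hτ, hd⟩
    · exact Pool.Agent.T2h81.LD.polys_alg_ld r hr P hlc hP hind'
    · refine Pool.Agent.T2h81.LD.polys_ld r hr P hlc hind' c τ hc ?_
      intro H h hH i hi hirr hl m
      have hH' : ∀ j, |h j| ≤ (⌊H⌋₊ : ℤ) := by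
        intro j
        have h3 : ((h j).natAbs : ℝ) ≤ H := by
          rw [Nat.cast_natAbs]
          push_cast
          exact hH j
        have h4 : (h j).natAbs ≤ ⌊H⌋₊ := Nat.le_floor h3
        rw [← Int.natCast_natAbs]
        exact_mod_cast h4
      have h1 := hd ⌊H⌋₊ h hH' i hi (by rw [coeff_comb]; exact hirr)
        (fun l hl' => by rw [coeff_comb]; exact hl l hl') m
      rw [coeff_comb] at h1
      refine le_trans (mul_le_mul_of_nonneg_left ?_ hc.le) h1
      have hj : ∃ j, h j ≠ 0 := by
        by_contra hcon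
        push Not at hcon
        apply hirr
        refine ⟨0, ?_⟩
        simp [hcon]
      obtain ⟨j, hj⟩ := hj
      have h5 : 1 ≤ ⌊H⌋₊ := by
        have := Int.one_le_abs hj
        have := hH' j
        omega
      have h6 : (0 : ℝ) < ⌊H⌋₊ := by exact_mod_cast h5
      have hH0 : 0 ≤ H := by
        by_contra hcon
        push Not at hcon
        have := hH j
        have := abs_nonneg (h j : ℝ)
        linarith
      exact Real.rpow_le_rpow_of_nonpos h6 (Nat.floor_le hH0) (by linarith)
  obtain ⟨C, hC, Z₀, h0⟩ := key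
  refine ⟨C, by linarith, max Z₀ 2, fun Z hZ M hM lam hlam hlamZ => ?_⟩
  have hZ2 : 2 ≤ Z := (le_max_right _ _).trans hZ
  have hlog : 0 < Real.log Z := Real.log_pos (by linarith)
  have hM0 : 0 ≤ M := by linarith
  have hex : Real.exp (C * lam) ≤ Real.log Z := by
    rw [le_div_iff₀ (by linarith)] at hlamZ
    rw [← Real.exp_log hlog]
    apply Real.exp_le_exp.2
    linarith
  refine (h0 Z ((le_max_left _ _).trans hZ) M hM lam hlam hex).trans (le_of_eq ?_)
  rw [← Set.ncard_coe_finset]
  congr 2
  ext n
  rw [Finset.coe_filter]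
  simp only [Set.mem_ofPred_eq, Finset.mem_Ioc, PrimeFreeAround]
  rw [Nat.floor_lt hM0, Nat.le_floor_iff (by linarith)]
  tauto

end Pool.Agent.Results.MP_7ba156_nt.PolynomialsPositiveProportion
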