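import Pool.Agent.T2h81.UC.H4

set_option autoImplicit false

/-! # Large prime gaps around all rational multiples of bounded height, for a positive proportion of almost every run

There are `C` and, for `0 < η ≤ 1`, `X₀` such that for all `X ≥ X₀`, `λ ≥ 1`, all integers `A ≥ 1`, with
`E = C A² log(2 A) λ / η`, all intervals `(M, M + N]` with `N ≥ X ^ η`, and all `m` with
`log X exp(exp E) ≤ m ≤ X ^ (η / 2)`: for all but `exp(-λ / η) N` of the `n` of the interval at least `exp(-exp E) m` of
the integers `k` of `(n, n + m]` have this property: for ALL rational numbers `a / b` with `1 ≤ a, b ≤ A` no prime is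
within `λ log X` of `(a / b) k`.

So all the points `(a / b) k` lie in the middle parts of prime gaps longer than `2 λ log X`, `2 λ` times the average.
For fixed `λ` and `A` this is a positive proportion of the integers, in almost all short runs. Everything but `η`
may vary: the theorem is uniform for `A² log(2 A) λ ≤ c η log log X`, and `λ` of this size gives gaps longer than
`c log X log log X` at all the multiples, in almost all runs of `X ^ (η / 2)` integers.

The known simultaneous results (several real multiples, products, polynomials) concern gaps of record length and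
yield at least `X ^ (1 - ε)` integers up to `X`, not a positive proportion, and a bounded number of multiples.

Proof: the forms `a (n + k) + h`, `|h| ≤ A λ log X`, `(a, h) = 1`, must get a prime factor between `A` and a small
power of `X` (then `a (n + k) + h` is not `b` times a prime). Each class of `n` modulo the primes in `(A, c log X]`
leaves few forms without such a prime factor (upper bound sieve in the classes modulo the primes up to `A`); for
almost all `n` of the class the primes between a power of `log X` and a small power of `X` cover the rest for at least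
one `k` of every group of `exp(exp(O(E)))` well spaced values (`Pool.Agent.T2h81.UC`, on the basis of the starting
library's covering sieve `Y831.RC`). -/

namespace Pool.Agent.Results.MP_7ba156_nt.RationalMultiples

open Pool.Agent.T2h81.UC

theorem result : ∃ C : ℝ, 1 ≤ C ∧ ∀ η : ℝ, 0 < η → η ≤ 1 → ∃ X₀ : ℝ, ∀ X : ℝ, X₀ ≤ X →
    ∀ (lam : ℝ) (A : ℕ), 1 ≤ lam → 1 ≤ A → ∀ M N : ℕ, X ^ η ≤ N → ∀ m : ℕ,
    Real.log X * Real.exp (Real.exp (C * (A ^ 2 * Real.log (2 * A) * lam / η))) ≤ m →
    (m : ℝ) ≤ X ^ (η / 2) →
      ({n : ℕ | M < n ∧ n ≤ M + N ∧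
          (({k : ℕ | n < k ∧ k ≤ n + m ∧ ∀ a b : ℕ, 1 ≤ a → a ≤ A → 1 ≤ b → b ≤ A →
              ∀ p : ℕ, p.Prime → lam * Real.log X < |(p : ℝ) - (a / b : ℝ) * k|}.ncard : ℕ) : ℝ) <
            Real.exp (-Real.exp (C * (A ^ 2 * Real.log (2 * A) * lam / η))) * m}.ncard : ℝ) ≤
        Real.exp (-(lam / η)) * N := by
  classical
  obtain ⟨C, hC, h⟩ := ratio_main
  refine ⟨C, hC, fun η hη hη1 => ?_⟩
  obtain ⟨X₀, hX₀⟩ := h η hη hη1
  refine ⟨X₀, fun X hX lam A hlam hA M N hN m hm1 hm2 => ?_⟩
  refine le_trans (le_of_eq ?_) (hX₀ X hX lam A hlam hA M N hN m hm1 hm2)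
  rw [Nat.cast_inj]
  have hin : ∀ n : ℕ, {k : ℕ | n < k ∧ k ≤ n + m ∧ ∀ a b : ℕ, 1 ≤ a → a ≤ A → 1 ≤ b → b ≤ A →
      ∀ p : ℕ, p.Prime → lam * Real.log X < |(p : ℝ) - (a / b : ℝ) * k|}.ncard =
      ((Finset.Ioc n (n + m)).filter (fun k => GapAt A (lam * Real.log X) k)).card := by
    intro n
    rw [← Set.ncard_coe_finset]
    congr 1
    ext d
    rw [Finset.coe_filter, Set.mem_ofPred_eq, Set.mem_ofPred_eq, Finset.mem_Ioc, and_assoc]
    rfl
  rw [← Set.ncard_coe_finset]
  congr 1
  ext n
  rw [Finset.coe_filter, Set.mem_ofPred_eq, Set.mem_ofPred_eq, Finset.mem_Ioc, hin n, and_assoc]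

end Pool.Agent.Results.MP_7ba156_nt.RationalMultiples
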